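import Pool.Agent.PVD.StmtsL

/-! Squad PVD, block L, row XLG (helper28). -/

set_option autoImplicit false
open MeasureTheory

namespace Pool.Agent.PVD.L.H28

theorem den_pos {e m q : ℝ} {f : ℝ → ℝ} (hf : Adm e m f) (hq : 0 < q) {t : ℝ} (h0 : 0 ≤ t)
    (h1 : t ≤ 1) : 0 < f t + q * (1 - t) := by
  have hlo := hf.lo t h0 h1
  rcases lt_or_ge t 1 with h | h
  · have : 0 < q * (1 - t) := mul_pos hq (by linarith)
    linarith
  · have ht : t = 1 := le_antisymm h1 h
    rw [ht] at hlo ⊢
    have h3 : q * (1 - (1:ℝ)) = 0 := by ring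
    rw [h3]
    linarith

theorem point {e m q : ℝ} {f : ℝ → ℝ} (hf : Adm e m f) (hq : 0 < q) {t : ℝ} (h0 : 0 < t)
    (h1 : t ≤ 1) : |(1 - t) / (f t + q * (1 - t)) - 1 / (m * t + q)| ≤ 1 / e := by
  have he := hf.e0
  have he1 := hf.e1
  have hm : 0 < m := lt_of_lt_of_le one_pos hf.m1
  have hd := den_pos hf hq h0.le h1
  have hmt : 0 < m * t := mul_pos hm h0
  have hd2 : 0 < m * t + q := by linarith
  have hlo := hf.lo t h0.le h1
  have hhi := hf.hi t h0.le h1
  have e1 : (1 - t) / (f t + q * (1 - t)) - 1 / (m * t + q) =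
      (m * t * (1 - t) - f t) / ((f t + q * (1 - t)) * (m * t + q)) := by
    rw [div_sub_div _ _ hd.ne' hd2.ne']
    congr 1
    ring
  rw [e1, abs_div, abs_of_pos (mul_pos hd hd2), div_le_div_iff₀ (mul_pos hd hd2) he, one_mul]
  -- the denominator
  have h2 : t * (m * t) ≤ (f t + q * (1 - t)) * (m * t + q) := by
    have h3 : t ≤ f t + q * (1 - t) := by
      have : 0 ≤ q * (1 - t) := mul_nonneg hq.le (by linarith)
      linarith
    have h4 : m * t ≤ m * t + q := by linarith
    exact mul_le_mul h3 h4 hmt.le hd.le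
  refine le_trans ?_ h2
  rcases le_total t e with h | h
  · rw [hf.near t h0.le h]
    have e2 : m * t * (1 - t) - m * t = -(t * (m * t)) := by ring
    rw [e2, abs_neg, abs_of_pos (mul_pos h0 hmt)]
    have h5 : 0 < t * (m * t) := mul_pos h0 hmt
    nlinarith
  · have h6 : |m * t * (1 - t) - f t| ≤ m * t := by
      rw [abs_le]
      have h7 : 0 ≤ m * t * (1 - t) := mul_nonneg hmt.le (by linarith)
      have h8 : m * t * (1 - t) ≤ m * t := by nlinarith
      constructor
      · linarith
      · linarith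
    calc |m * t * (1 - t) - f t| * e ≤ m * t * e := mul_le_mul_of_nonneg_right h6 he.le
      _ ≤ m * t * t := mul_le_mul_of_nonneg_left h hmt.le
      _ = t * (m * t) := by ring

theorem int_inv {m q : ℝ} (hm : 0 < m) (hq : 0 < q) :
    ∫ t in (0:ℝ)..1, 1 / (m * t + q) = (Real.log (m + q) - Real.log q) / m := by
  have hd : ∀ t ∈ Set.uIcc (0:ℝ) 1, HasDerivAt (fun t => Real.log (m * t + q) / m)
      (1 / (m * t + q)) t := by
    intro t ht
    rw [Set.uIcc_of_le zero_le_one] at ht
    have hp : 0 < m * t + q := by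
      have := mul_nonneg hm.le ht.1
      linarith
    have h1 : HasDerivAt (fun t : ℝ => m * t + q) m t := by
      have h2 := ((hasDerivAt_id t).const_mul m).add_const q
      rw [mul_one] at h2
      exact h2
    have h3 := (h1.log hp.ne').div_const m
    have e1 : m / (m * t + q) / m = 1 / (m * t + q) := by
      field_simp
    rw [e1] at h3
    exact h3
  have hc : ContinuousOn (fun t : ℝ => 1 / (m * t + q)) (Set.uIcc (0:ℝ) 1) := by
    refine ContinuousOn.div continuousOn_const (by fun_prop) ?_
    intro t ht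
    rw [Set.uIcc_of_le zero_le_one] at ht
    have := mul_nonneg hm.le ht.1
    linarith
  rw [intervalIntegral.integral_eq_sub_of_hasDerivAt hd hc.intervalIntegrable]
  rw [mul_one, mul_zero, zero_add, ← sub_div]

theorem xlg : XlgStmt := by
  intro e m q f hf hq hq1
  have hm1 := hf.m1
  have hm : 0 < m := lt_of_lt_of_le one_pos hm1
  have hc1 : ContinuousOn (fun t : ℝ => (1 - t) / (f t + q * (1 - t))) (Set.uIcc (0:ℝ) 1) := by
    have hfc := hf.cont
    refine ContinuousOn.div (by fun_prop) (by fun_prop) ?_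
    intro t ht
    rw [Set.uIcc_of_le zero_le_one] at ht
    exact (den_pos hf hq ht.1 ht.2).ne'
  have hc2 : ContinuousOn (fun t : ℝ => 1 / (m * t + q)) (Set.uIcc (0:ℝ) 1) := by
    refine ContinuousOn.div continuousOn_const (by fun_prop) ?_
    intro t ht
    rw [Set.uIcc_of_le zero_le_one] at ht
    have := mul_nonneg hm.le ht.1
    linarith
  have hb : |(∫ t in (0:ℝ)..1, ((1 - t) / (f t + q * (1 - t)) - 1 / (m * t + q)))| ≤ 1 / e := by
    have h1 := intervalIntegral.norm_integral_le_of_norm_le_const (a := (0:ℝ)) (b := 1)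
      (C := 1 / e) (f := fun t => (1 - t) / (f t + q * (1 - t)) - 1 / (m * t + q)) (by
        intro t ht
        rw [Set.uIoc_of_le zero_le_one] at ht
        exact point hf hq ht.1 ht.2)
    rw [sub_zero, abs_one, mul_one, Real.norm_eq_abs] at h1
    exact h1
  rw [intervalIntegral.integral_sub hc1.intervalIntegrable hc2.intervalIntegrable,
    int_inv hm hq] at hb
  have hlog : Real.log (1 / q) = - Real.log q := by
    rw [one_div, Real.log_inv]
  have e1 : (∫ t in (0:ℝ)..1, (1 - t) / (f t + q * (1 - t))) - Real.log (1 / q) / m =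
      ((∫ t in (0:ℝ)..1, (1 - t) / (f t + q * (1 - t))) - (Real.log (m + q) - Real.log q) / m)
        + Real.log (m + q) / m := by
    rw [hlog]
    ring
  have h2 : |Real.log (m + q) / m| ≤ Real.log (m + 1) := by
    have h3 : 0 ≤ Real.log (m + q) := Real.log_nonneg (by linarith)
    rw [abs_of_nonneg (div_nonneg h3 hm.le)]
    calc Real.log (m + q) / m ≤ Real.log (m + q) := div_le_self h3 hm1
      _ ≤ Real.log (m + 1) := Real.log_le_log (by linarith) (by linarith)
  rw [e1]
  exact (abs_add_le _ _).trans (add_le_add hb h2)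

end Pool.Agent.PVD.L.H28
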